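import Pool.Agent.T6.H79.SC.E4

/-!
# The threshold `s₀(ℓ)` for the stabilisation of suitable-core numbers

We determine `s₀(ℓ)` for every `ℓ` in terms of three-colour Ramsey numbers:

`s₀(ℓ) = 1 + max ( m - 3 + ∑_{T} (R(e_i + 1 : i ∈ T) - 1) )`,

where the maximum is over all `3 ≤ m ≤ ℓ + 3` and all vectors `e` of `m` positive integers with sum
`ℓ + 4`, the sum is over all 3-subsets `T` of the index set, and `R(e_i + 1 : i ∈ T)` is the
three-colour Ramsey number.  Small values: `s₀(0) = 3`, `s₀(1) = 9`, `s₀(2) = 19`, `s₀(3) = 34` and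
`s₀(4) = max(66, R(4,4,3))` (the Ramsey number `R(3,4,4)` is open, so that the value for `ℓ = 4` is
equivalent to a question on this number).  Growth: `s₀(ℓ)` grows exponentially,
`3^⌊(ℓ+4)/6⌋ < s₀(ℓ) ≤ 2·3^(ℓ+3)`, and up to the factor `C(ℓ+3,3)` it is the largest of the Ramsey
numbers `R(a+1,b+1,c+1)` with `a + b + c = ℓ + 4`.

Proof idea.  Choose distinct representatives for the first symbols of the rows; the other symbols
form a core, in which each symbol `a` is the first of `s - 1 + e(a)` rows, `∑ e(a) = ℓ + 4` (for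
`s + 3` symbols), and each set `B` of `e(a) + 1` symbols contains the nonempty set of the
predecessors of `a` in some row.  For `e(a) = 0` this means that all `b ≠ a` are followed by `a` at
the beginning of a row.  Let `P` be the set of the `m` symbols with `e(a) > 0` and `Z` the rest.  A row
starting with `b, c ∈ Z` has one third symbol; counting rows, each `b ∈ Z` has a set `T(b)` of three
symbols of `P` which do not follow `b` immediately, and for `T(b) = T(c) = T` the two rows with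
`b, c` and `c, b` miss one symbol of `T`; this is an edge colouring without a clique of colour `q` with
`e(q) + 1` vertices.  So `|Z| ≤ ∑_T (R_T - 1)`.  Conversely the colourings give a core if some
`e(q) ≥ 2`; if all `e(q)` are one, then at least `m` triples `T` cannot be used, and the vector
`(2,1,…,1)` is better.
-/

set_option autoImplicit false

open Finset

namespace Pool.Agent.Results.MP_cb8ad4_co.ExactThreshold

/-- An `N × v` array `A` whose rows are permutations of the `v` symbols: `A r j` is the symbol in row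
`r` and column `j`, so that `(A r).symm a` is the column of the symbol `a` in row `r`.  It is
`(N,v,t)`-suitable if for every symbol `a` and every set `S` of `t - 1` other symbols there is a row
in which `a` occurs to the left of every element of `S`. -/
def Suitable (N v t : ℕ) (A : Fin N → Equiv.Perm (Fin v)) : Prop :=
  ∀ a : Fin v, ∀ S : Finset (Fin v), a ∉ S → S.card = t - 1 →
    ∃ r : Fin N, ∀ b ∈ S, (A r).symm a < (A r).symm b

/-- `V(t,N) = v`: the number `v` is the largest `v ≥ 1` for which an `(N,v,t)`-suitable array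
exists. -/
def IsV (t N v : ℕ) : Prop :=
  IsGreatest {v : ℕ | 1 ≤ v ∧ ∃ A : Fin N → Equiv.Perm (Fin v), Suitable N v t A} v

/-- `σ(t,N) = k`, that is `V(t,N) = N + k`. -/
def SigmaEq (t N k : ℕ) : Prop := IsV t N (N + k)

/-- `s₀` is the threshold `s₀(ℓ)`: the least positive integer such that
`σ(2s+1, (s+1)² + ℓ) = s + 2` for all `s ≥ s₀`. -/
def IsThreshold (ℓ s₀ : ℕ) : Prop :=
  IsLeast {s₀ : ℕ | 1 ≤ s₀ ∧ ∀ s, s₀ ≤ s → SigmaEq (2 * s + 1) ((s + 1) ^ 2 + ℓ) (s + 2)} s₀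

/-- Every colouring of the edges of the complete graph on `n` vertices with colours in `T` has, for
some colour `q ∈ T`, a clique with `c q` vertices all of whose edges have colour `q`. -/
def RamseyProp {γ : Type} (T : Finset γ) (c : γ → ℕ) (n : ℕ) : Prop :=
  ∀ χ : Fin n → Fin n → γ, (∀ i j, χ i j = χ j i) → (∀ i j, i ≠ j → χ i j ∈ T) →
    ∃ q ∈ T, ∃ B : Finset (Fin n), B.card = c q ∧ ∀ i ∈ B, ∀ j ∈ B, i ≠ j → χ i j = q

/-- The multicolour Ramsey number `R(c_q : q ∈ T)`. -/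
noncomputable def ramsey {γ : Type} (T : Finset γ) (c : γ → ℕ) : ℕ :=
  sInf {n : ℕ | RamseyProp T c n}

/-- The three-colour Ramsey number `R(a,b,c)`. -/
noncomputable def R3 (a b c : ℕ) : ℕ := ramsey (univ : Finset (Fin 3)) ![a, b, c]

/-- The value of a vector `e = (e_1, …, e_m)`:
`m - 3 + ∑ (R(e_i + 1 : i ∈ T) - 1)`, the sum over all 3-subsets `T` of the index set. -/
noncomputable def value (m : ℕ) (e : Fin m → ℕ) : ℕ :=
  (m - 3) + ∑ T ∈ (univ : Finset (Fin m)).powersetCard 3, (ramsey T (fun i => e i + 1) - 1)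

/-- All the values of vectors of `m` positive integers with sum `ℓ + 4`, `3 ≤ m ≤ ℓ + 3`. -/
def Values (ℓ : ℕ) : Set ℕ :=
  {x | ∃ m : ℕ, 3 ≤ m ∧ m ≤ ℓ + 3 ∧ ∃ e : Fin m → ℕ, (∀ i, 1 ≤ e i) ∧ ∑ i, e i = ℓ + 4 ∧
    x = value m e}

theorem isThreshold_iff (ℓ s₀ : ℕ) :
    Pool.Agent.T6.H79.SC.IsThreshold ℓ s₀ ↔ IsThreshold ℓ s₀ := Iff.rfl

theorem ramsey_eq {γ : Type} (T : Finset γ) (e : γ → ℕ) :
    ramsey T (fun i => e i + 1) = Pool.Agent.T6.H79.SC.ram T e := rfl

theorem values_eq (ℓ : ℕ) : Values ℓ = Pool.Agent.T6.H79.SC.Cand ℓ := rfl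

theorem R3_eq (a b c : ℕ) : R3 (a + 1) (b + 1) (c + 1) = Pool.Agent.T6.H79.SC.R3 a b c := by
  have h : (![a + 1, b + 1, c + 1] : Fin 3 → ℕ) = fun i => ![a, b, c] i + 1 := by
    funext i
    fin_cases i <;> rfl
  rw [R3, h, ramsey_eq, Pool.Agent.T6.H79.SC.R3]

/-- **Main theorem**: the thresholds `s₀(ℓ)` and their growth. -/
theorem result :
    -- the exact formula: `s₀(ℓ) = 1 + max` of the values, for every `ℓ`
    (∀ ℓ : ℕ, ∃ M : ℕ, IsGreatest (Values ℓ) M ∧ IsThreshold ℓ (M + 1)) ∧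
    -- `s₀(0), …, s₀(4)`
    (IsThreshold 0 3 ∧ IsThreshold 1 9 ∧ IsThreshold 2 19 ∧ IsThreshold 3 34 ∧
      IsThreshold 4 (max 66 (R3 4 4 3))) ∧
    -- `s₀` grows exponentially
    (∀ ℓ s₀ : ℕ, IsThreshold ℓ s₀ → 3 ^ ((ℓ + 4) / 6) < s₀ ∧ s₀ ≤ 2 * 3 ^ (ℓ + 3)) ∧
    -- up to the factor `C(ℓ+3,3)`, `s₀(ℓ)` is the largest `R(a+1,b+1,c+1)` with `a+b+c = ℓ+4`
    (∀ ℓ s₀ : ℕ, IsThreshold ℓ s₀ →
      (∀ a b c : ℕ, 1 ≤ a → 1 ≤ b → 1 ≤ c → a + b + c = ℓ + 4 →
        R3 (a + 1) (b + 1) (c + 1) ≤ s₀) ∧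
      ∃ a b c : ℕ, 1 ≤ a ∧ 1 ≤ b ∧ 1 ≤ c ∧ a + b + c = ℓ + 4 ∧
        s₀ ≤ ℓ + 1 + (ℓ + 3).choose 3 * (R3 (a + 1) (b + 1) (c + 1) - 1)) ∧
    -- the Ramsey numbers used here exist
    (∀ (m : ℕ) (T : Finset (Fin m)) (e : Fin m → ℕ), T.card = 3 →
      RamseyProp T (fun i => e i + 1) (ramsey T (fun i => e i + 1))) := by
  refine ⟨?_, ⟨?_, ?_, ?_, ?_, ?_⟩, ?_, ?_, ?_⟩
  · intro ℓ
    obtain ⟨M, hM⟩ := Pool.Agent.T6.H79.SC.exists_greatest ℓ
    exact ⟨M, hM, Pool.Agent.T6.H79.SC.threshold hM⟩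
  · exact Pool.Agent.T6.H79.SC.threshold_zero
  · exact Pool.Agent.T6.H79.SC.threshold_one
  · exact Pool.Agent.T6.H79.SC.threshold_two
  · exact Pool.Agent.T6.H79.SC.threshold_three
  · rw [R3_eq 3 3 2]
    exact Pool.Agent.T6.H79.SC.threshold_four
  · intro ℓ s₀ h
    exact ⟨Pool.Agent.T6.H79.SC.growth_lower h, Pool.Agent.T6.H79.SC.growth_upper h⟩
  · intro ℓ s₀ h
    refine ⟨?_, ?_⟩
    · intro a b c ha hb hc hs
      rw [R3_eq]
      exact Pool.Agent.T6.H79.SC.ramsey_lower h ha hb hc hs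
    · obtain ⟨a, b, c, ha, hb, hc, hs, hle⟩ := Pool.Agent.T6.H79.SC.ramsey_upper h
      exact ⟨a, b, c, ha, hb, hc, hs, by rw [R3_eq]; exact hle⟩
  · intro m T e hT
    exact Pool.Agent.T6.H79.SC.ramProp_ram hT e

end Pool.Agent.Results.MP_cb8ad4_co.ExactThreshold
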